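import Pool.Agent.VarSpace.Core

/-!
From configuration-style refutations of small variable space to shallow resolution refutations.
-/

set_option autoImplicit false
open Classical

namespace Pool.Agent.VarSpace

/-- literals: `(i, b)` is satisfied by `α` iff `α i = b` -/
abbrev Cls (n : ℕ) := Finset (Fin n × Bool)

/-- some clause of `F` is falsified on all of `R` -/
def EF {n : ℕ} (F : Finset (Cls n)) (R : Set (Fin n → Bool)) : Prop :=
  ∃ C ∈ F, ∀ α ∈ R, ∀ l ∈ C, α l.1 ≠ l.2

theorem EF_anti {n : ℕ} (F : Finset (Cls n)) (R R' : Set (Fin n → Bool)) (h : R' ⊆ R)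
    (hE : EF F R) : EF F R' := by
  obtain ⟨C, hC, hα⟩ := hE
  exact ⟨C, hC, fun α hα' => hα α (h hα')⟩

/-- single bit queries -/
def bit {n : ℕ} (i : Fin n) (α : Fin n → Bool) : Bool := α i

/-- window queries -/
noncomputable def win {n : ℕ} (S : Finset (Fin n)) (α : Fin n → Bool) : Fin n → Bool :=
  fun i => if i ∈ S then α i else false

theorem win_eq_iff {n : ℕ} (S : Finset (Fin n)) (α β : Fin n → Bool) (h : win S α = win S β)
    (i : Fin n) (hi : i ∈ S) : α i = β i := by
  have := congrFun h i
  simpa [win, hi] using this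

/-- querying all variables of a window -/
theorem expand {n : ℕ} (F : Finset (Cls n)) (k : ℕ) (S : Finset (Fin n)) :
    ∀ R : Set (Fin n → Bool), (∀ a, DT (EF F) bit k (R ∩ {α | win S α = a})) →
      DT (EF F) bit (k + S.card) R := by
  induction S using Finset.induction_on with
  | empty =>
    intro R h
    have := h (fun _ => false)
    refine DT.anti (EF_anti F) _ _ _ ?_ this
    intro α hα
    refine ⟨hα, ?_⟩
    funext i
    simp [win]
  | insert i S hi ih =>
    intro R h
    rw [Finset.card_insert_of_notMem hi, ← add_assoc]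
    refine DT.query i fun b => ih _ fun a => ?_
    refine DT.anti (EF_anti F) _ _ _ ?_ (h (Function.update a i b))
    rintro α ⟨⟨hα, hb⟩, ha⟩
    refine ⟨hα, ?_⟩
    funext j
    have ha' : win S α j = a j := congrFun ha j
    by_cases hj : j = i
    · subst hj
      simp only [win, Finset.mem_insert_self, if_true, Function.update_self]
      exact hb
    · simp only [win, Finset.mem_insert, hj, false_or] at ha' ⊢
      rw [Function.update_of_ne hj]
      exact ha'

/-- a decision tree on windows of size at most `V` gives one on variables -/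
theorem conv {n V : ℕ} (F : Finset (Cls n)) :
    ∀ (k : ℕ) (R : Set (Fin n → Bool)),
      DT (EF F) (fun (S : {S : Finset (Fin n) // S.card ≤ V}) α => win S.1 α) k R →
      DT (EF F) bit (k * V) R := by
  intro k
  induction k with
  | zero => intro R h; exact DT.of_E (show EF F R from h)
  | succ k ih =>
    intro R h
    rcases h with h | ⟨S, hS⟩
    · exact DT.of_E h
    · have := expand F (k * V) S.1 R fun a => ih _ (hS a)
      refine DT.mono ?_ this
      have := S.2
      have h2 : (k + 1) * V = k * V + V := by ring
      omega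

/-- the subcube of a restriction -/
def cube {n : ℕ} (ρ : Fin n → Option Bool) : Set (Fin n → Bool) :=
  {α | ∀ i b, ρ i = some b → α i = b}

/-- decision trees give resolution refutations of the same depth -/
theorem toRes {n : ℕ} (F : Finset (Cls n)) (S : ℕ → Set (Cls n))
    (hS0 : ∀ C, C ∈ S 0 ↔ C ∈ F)
    (hS : ∀ (k : ℕ) (C : Finset (Fin n × Bool)), C ∈ S (k + 1) ↔
        (C ∈ S k ∨ ∃ C₁ ∈ S k, ∃ C₂ ∈ S k, ∃ x : Fin n, (x, true) ∈ C₁ ∧ (x, false) ∈ C₂ ∧
          C = C₁.erase (x, true) ∪ C₂.erase (x, false))) :
    ∀ (k : ℕ) (ρ : Fin n → Option Bool), DT (EF F) bit k (cube ρ) →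
      ∃ C ∈ S k, ∀ l ∈ C, ρ l.1 = some (!l.2) := by
  have hmono : ∀ k, S 0 ⊆ S k := by
    intro k
    induction k with
    | zero => exact subset_rfl
    | succ k ih => exact fun C hC => (hS k C).mpr (Or.inl (ih hC))
  have hbase : ∀ ρ : Fin n → Option Bool, EF F (cube ρ) →
      ∃ C ∈ S 0, ∀ l ∈ C, ρ l.1 = some (!l.2) := by
    rintro ρ ⟨C, hC, hα⟩
    refine ⟨C, (hS0 C).mpr hC, fun l hl => ?_⟩
    -- choose α in the cube satisfying l if possible
    cases hρ : ρ l.1 with
    | none =>
      exfalso
      refine hα (fun i => if i = l.1 then l.2 else (ρ i).getD false) ?_ l hl (by simp)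
      intro i b hi
      by_cases h : i = l.1
      · rw [h, hρ] at hi; cases hi
      · simp [h, hi]
    | some b =>
      have h1 := hα (fun i => (ρ i).getD false) (by intro i b' hi; simp [hi]) l hl
      simp only [hρ, Option.getD_some] at h1
      congr 1
      revert h1
      cases b <;> cases l.2 <;> simp
  intro k
  induction k with
  | zero => intro ρ h; exact hbase ρ h
  | succ k ih =>
    intro ρ h
    rcases h with h | ⟨x, hx⟩
    · obtain ⟨C, hC, hl⟩ := hbase ρ h
      exact ⟨C, hmono _ hC, hl⟩
    · cases hρ : ρ x with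
      | some b =>
        have h1 : cube ρ ∩ {α | bit x α = b} = cube ρ := by
          ext α
          constructor
          · exact fun h => h.1
          · exact fun h => ⟨h, h x b hρ⟩
        have h2 := hx b
        rw [h1] at h2
        obtain ⟨C, hC, hl⟩ := ih ρ h2
        exact ⟨C, (hS k C).mpr (Or.inl hC), hl⟩
      | none =>
        have hcube : ∀ b, cube (Function.update ρ x (some b)) ⊆ cube ρ ∩ {α | bit x α = b} := by
          intro b α hα
          refine ⟨fun i b' hi => ?_, hα x b (by simp)⟩
          have hix : i ≠ x := by rintro rfl; rw [hρ] at hi; cases hi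
          exact hα i b' (by rw [Function.update_of_ne hix]; exact hi)
        obtain ⟨C₀, hC₀, hl₀⟩ := ih _ (DT.anti (EF_anti F) _ _ _ (hcube false) (hx false))
        obtain ⟨C₁, hC₁, hl₁⟩ := ih _ (DT.anti (EF_anti F) _ _ _ (hcube true) (hx true))
        by_cases h0 : (x, true) ∈ C₀
        · by_cases h1 : (x, false) ∈ C₁
          · refine ⟨C₀.erase (x, true) ∪ C₁.erase (x, false),
              (hS k _).mpr (Or.inr ⟨C₀, hC₀, C₁, hC₁, x, h0, h1, rfl⟩), ?_⟩
            intro l hl
            rcases Finset.mem_union.mp hl with hl | hl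
            · obtain ⟨hne, hl⟩ := Finset.mem_erase.mp hl
              have h2 := hl₀ l hl
              by_cases hlx : l.1 = x
              · exfalso
                rw [hlx, Function.update_self] at h2
                apply hne
                have : l.2 = true := by
                  have := Option.some.inj h2
                  revert this; cases l.2 <;> simp
                exact Prod.ext hlx this
              · rwa [Function.update_of_ne hlx] at h2
            · obtain ⟨hne, hl⟩ := Finset.mem_erase.mp hl
              have h2 := hl₁ l hl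
              by_cases hlx : l.1 = x
              · exfalso
                rw [hlx, Function.update_self] at h2
                apply hne
                have : l.2 = false := by
                  have := Option.some.inj h2
                  revert this; cases l.2 <;> simp
                exact Prod.ext hlx this
              · rwa [Function.update_of_ne hlx] at h2
          · refine ⟨C₁, (hS k _).mpr (Or.inl hC₁), fun l hl => ?_⟩
            have h2 := hl₁ l hl
            by_cases hlx : l.1 = x
            · exfalso
              rw [hlx, Function.update_self] at h2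
              apply h1
              have : l.2 = false := by
                have := Option.some.inj h2
                revert this; cases l.2 <;> simp
              have hl' : l = (x, false) := Prod.ext hlx this
              rwa [hl'] at hl
            · rwa [Function.update_of_ne hlx] at h2
        · refine ⟨C₀, (hS k _).mpr (Or.inl hC₀), fun l hl => ?_⟩
          have h2 := hl₀ l hl
          by_cases hlx : l.1 = x
          · exfalso
            rw [hlx, Function.update_self] at h2
            apply h0
            have : l.2 = true := by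
              have := Option.some.inj h2
              revert this; cases l.2 <;> simp
            have hl' : l = (x, true) := Prod.ext hlx this
            rwa [hl'] at hl
          · rwa [Function.update_of_ne hlx] at h2

/-- number of small windows -/
theorem card_windows (n V : ℕ) :
    Fintype.card {S : Finset (Fin n) // S.card ≤ V} ≤ (n + 1) ^ V := by
  have : Fintype.card (Fin V → Option (Fin n)) = (n + 1) ^ V := by
    simp [Fintype.card_option]
  rw [← this]
  refine Fintype.card_le_of_injective
    (fun S j => (S.1.toList)[(j : ℕ)]?) ?_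
  intro S S' h
  apply Subtype.ext
  have key : ∀ (A : {S : Finset (Fin n) // S.card ≤ V}) (i : Fin n),
      i ∈ A.1 ↔ ∃ j : Fin V, (A.1.toList)[(j : ℕ)]? = some i := by
    intro A i
    rw [← Finset.mem_toList, List.mem_iff_getElem?]
    constructor
    · rintro ⟨j, hj⟩
      have hlt : j < A.1.toList.length := by
        by_contra hc
        rw [List.getElem?_eq_none (by omega)] at hj
        cases hj
      rw [Finset.length_toList] at hlt
      exact ⟨⟨j, lt_of_lt_of_le hlt A.2⟩, hj⟩
    · rintro ⟨j, hj⟩
      exact ⟨j, hj⟩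
  ext i
  rw [key S i, key S' i]
  constructor
  · rintro ⟨j, hj⟩
    exact ⟨j, by have := congrFun h j; simp only at this; rw [← this]; exact hj⟩
  · rintro ⟨j, hj⟩
    exact ⟨j, by have := congrFun h j; simp only at this; rw [this]; exact hj⟩

/-- possible values of a window -/
noncomputable def wvals {n : ℕ} (S : Finset (Fin n)) : Finset (Fin n → Bool) :=
  Fintype.piFinset fun i => if i ∈ S then Finset.univ else {false}

theorem win_mem {n : ℕ} (S : Finset (Fin n)) (α : Fin n → Bool) : win S α ∈ wvals S := by
  unfold wvals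
  rw [Fintype.mem_piFinset]
  intro i
  by_cases hi : i ∈ S <;> simp [win, hi]

theorem wvals_card {n : ℕ} (S : Finset (Fin n)) : (wvals S).card = 2 ^ S.card := by
  unfold wvals
  rw [Fintype.card_piFinset]
  have : ∀ i : Fin n, (if i ∈ S then (Finset.univ : Finset Bool) else {false}).card
      = if i ∈ S then 2 else 1 := by
    intro i; split_ifs <;> simp
  simp only [this]
  rw [Finset.prod_ite]
  simp

/-- the main theorem in terms of decision trees -/
theorem depth_of_varSpace (n V : ℕ) (F : Finset (Cls n)) (T : ℕ) (M : ℕ → Finset (Cls n))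
    (hM0 : M 0 = ∅) (hMT : ∅ ∈ M T)
    (hstep : ∀ i < T,
        (∃ C ∈ F, M (i + 1) = insert C (M i)) ∨
        (∃ C ∈ M i, M (i + 1) = (M i).erase C) ∨
        (∃ C₁ ∈ M i, ∃ C₂ ∈ M i, ∃ x : Fin n, (x, true) ∈ C₁ ∧ (x, false) ∈ C₂ ∧
          M (i + 1) = insert (C₁.erase (x, true) ∪ C₂.erase (x, false)) (M i)))
    (hV : ∀ i ≤ T, (((M i).biUnion id).image Prod.fst).card ≤ V) :
    DT (EF F) bit ((1 + (V * (Nat.log 2 n + 1)) * (3 + 8 * (V + 1))) * V) Set.univ ∧
    (∀ α : Fin n → Bool, EF F {α}) := by
  have hTpos : 0 < T := by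
    rcases Nat.eq_zero_or_pos T with h | h
    · subst h; rw [hM0] at hMT; simp at hMT
    · exact h
  have hFne : F.Nonempty := by
    by_contra hc
    rw [Finset.not_nonempty_iff_eq_empty] at hc
    have : ∀ i, i ≤ T → M i = ∅ := by
      intro i
      induction i with
      | zero => intro _; exact hM0
      | succ i ih =>
        intro hi
        have h0 := ih (by omega)
        rcases hstep i (by omega) with ⟨C, hC, _⟩ | ⟨C, hC, _⟩ | ⟨C, hC, _⟩
        · rw [hc] at hC; simp at hC
        · rw [h0] at hC; simp at hC
        · rw [h0] at hC; simp at hC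
    rw [this T le_rfl] at hMT
    simp at hMT
  obtain ⟨C0, hC0⟩ := hFne
  -- configurations frozen after time T
  set vars : ℕ → Finset (Fin n) := fun j => ((M (min j T)).biUnion id).image Prod.fst with hvars
  have hcardv : ∀ j, (vars j).card ≤ V := fun j => hV _ (min_le_right _ _)
  set v : ℕ → {S : Finset (Fin n) // S.card ≤ V} := fun j => ⟨vars j, hcardv j⟩ with hv
  set G : ℕ → (Fin n → Bool) → Prop := fun j α => ∀ C ∈ M (min j T), ∃ l ∈ C, α l.1 = l.2 with hG
  have hGF : ∀ t ω ω', win (v t).1 ω = win (v t).1 ω' → G t ω → G t ω' := by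
    intro t ω ω' h hω C hC
    obtain ⟨l, hl, hlω⟩ := hω C hC
    refine ⟨l, hl, ?_⟩
    rw [← hlω]
    symm
    refine win_eq_iff _ _ _ h l.1 ?_
    simp only [hv, hvars, Finset.mem_image, Finset.mem_biUnion, id]
    exact ⟨l, ⟨C, hC, hl⟩, rfl⟩
  have hst : ∀ t, t < T → ∀ R : Set (Fin n → Bool), (∀ ω ∈ R, G t ω) → (∀ ω ∈ R, ¬ G (t + 1) ω) →
      EF F R := by
    intro t ht R h1 h2
    have e1 : min t T = t := by omega
    have e2 : min (t + 1) T = t + 1 := by omega
    simp only [hG, e1, e2] at h1 h2
    have hempty : (∀ ω ∈ R, False) → EF F R := fun h => ⟨C0, hC0, fun α hα => (h α hα).elim⟩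
    rcases hstep t ht with ⟨C, hC, hM⟩ | ⟨C, hC, hM⟩ | ⟨C₁, hC₁, C₂, hC₂, x, hx1, hx2, hM⟩
    · refine ⟨C, hC, fun α hα l hl hcon => h2 α hα ?_⟩
      intro C' hC'
      rw [hM, Finset.mem_insert] at hC'
      rcases hC' with rfl | hC'
      · exact ⟨l, hl, hcon⟩
      · exact h1 α hα C' hC'
    · refine hempty fun ω hω => h2 ω hω ?_
      intro C' hC'
      rw [hM, Finset.mem_erase] at hC'
      exact h1 ω hω C' hC'.2
    · refine hempty fun ω hω => h2 ω hω ?_
      intro C' hC'
      rw [hM, Finset.mem_insert] at hC'
      rcases hC' with rfl | hC'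
      · obtain ⟨l1, hl1, hl1ω⟩ := h1 ω hω C₁ hC₁
        obtain ⟨l2, hl2, hl2ω⟩ := h1 ω hω C₂ hC₂
        by_cases hxv : ω x = true
        · refine ⟨l2, Finset.mem_union_right _ (Finset.mem_erase.mpr ⟨?_, hl2⟩), hl2ω⟩
          rintro rfl
          rw [hxv] at hl2ω
          simp at hl2ω
        · refine ⟨l1, Finset.mem_union_left _ (Finset.mem_erase.mpr ⟨?_, hl1⟩), hl1ω⟩
          rintro rfl
          exact hxv hl1ω
      · exact h1 ω hω C' hC'
  have hG0 : ∀ ω, G 0 ω := by
    intro ω C hC
    have : min 0 T = 0 := by omega
    rw [this, hM0] at hC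
    simp at hC
  have hGT : ∀ ω, ¬ G T ω := by
    intro ω h
    have e : min T T = T := by omega
    simp only [hG, e] at h
    obtain ⟨l, hl, _⟩ := h ∅ hMT
    simp at hl
  have HT : Tests (EF F) (fun (S : {S : Finset (Fin n) // S.card ≤ V}) α => win S.1 α)
      (fun S => wvals S.1) v G T (2 ^ V) :=
    { anti := EF_anti F
      hF := hGF
      step := hst
      hvals := fun x ω => win_mem _ _
      hq := fun x => by rw [wvals_card]; exact Nat.pow_le_pow_right (by norm_num) x.2 }
  constructor
  · have h1 := good_pow HT (V * (Nat.log 2 n + 1))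
    have h2 := h1 Set.univ 0 T hTpos le_rfl (fun ω _ => hG0 ω) (fun ω _ => hGT ω) ?_
    · rw [Nat.size_pow] at h2
      exact conv F _ _ h2
    · calc (Vis v 0 T).card ≤ Fintype.card {S : Finset (Fin n) // S.card ≤ V} :=
            Finset.card_le_univ _
        _ ≤ (n + 1) ^ V := card_windows n V
        _ ≤ (2 ^ (Nat.log 2 n + 1)) ^ V :=
            Nat.pow_le_pow_left (Nat.lt_pow_succ_log_self (by norm_num) n) V
        _ = 2 ^ (V * (Nat.log 2 n + 1)) := by rw [← pow_mul, mul_comm]
  · intro α
    have hex : ∃ t, ¬ G t α := ⟨T, hGT α⟩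
    have h0 := Nat.find_spec hex
    have hle : Nat.find hex ≤ T := Nat.find_min' hex (hGT α)
    have hne : Nat.find hex ≠ 0 := by
      intro he; rw [he] at h0; exact h0 (hG0 α)
    obtain ⟨t, htt⟩ : ∃ t, Nat.find hex = t + 1 := ⟨Nat.find hex - 1, by omega⟩
    have hGt : G t α := by
      by_contra hc
      have := Nat.find_min' hex hc
      omega
    rw [htt] at h0 hle
    refine hst t (by omega) {α} ?_ ?_
    · rintro ω rfl; exact hGt
    · rintro ω rfl; exact h0

end Pool.Agent.VarSpace
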