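import Mathlib

/-!
Decision trees for the search problem of finding a descent in a long sequence of tests, where the
tests look at few distinct nodes.  Main result `main_bound`: a sequence of tests on `2^k` nodes with
`q` values each is solved with `O(k log q)` node queries, however long the sequence is.
-/

set_option autoImplicit false
open Classical

namespace Pool.Agent.VarSpace

section core
variable {Ω X Q : Type}

/-- `DT E obs k R`: a decision tree of depth `k` querying the observables `obs x` leads from the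
knowledge set `R` to a knowledge set satisfying `E`. -/
def DT (E : Set Ω → Prop) (obs : X → Ω → Q) : ℕ → Set Ω → Prop
  | 0, R => E R
  | k + 1, R => E R ∨ ∃ x, ∀ a, DT E obs k (R ∩ {ω | obs x ω = a})

variable {E : Set Ω → Prop} {obs : X → Ω → Q}

theorem DT.of_E {k : ℕ} {R : Set Ω} (h : E R) : DT E obs k R := by
  cases k with
  | zero => exact h
  | succ k => exact Or.inl h

theorem DT.anti (hE : ∀ R R' : Set Ω, R' ⊆ R → E R → E R') :
    ∀ (k : ℕ) (R R' : Set Ω), R' ⊆ R → DT E obs k R → DT E obs k R' := by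
  intro k
  induction k with
  | zero => intro R R' h1 h2; exact hE R R' h1 h2
  | succ k ih =>
    intro R R' h1 h2
    rcases h2 with h2 | ⟨x, hx⟩
    · exact Or.inl (hE R R' h1 h2)
    · exact Or.inr ⟨x, fun a => ih _ _ (Set.inter_subset_inter_left _ h1) (hx a)⟩

theorem DT.succ : ∀ (k : ℕ) (R : Set Ω), DT E obs k R → DT E obs (k + 1) R := by
  intro k
  induction k with
  | zero => intro R h; exact Or.inl h
  | succ k ih =>
    intro R h
    rcases h with h | ⟨x, hx⟩
    · exact Or.inl h
    · exact Or.inr ⟨x, fun a => ih _ (hx a)⟩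

theorem DT.mono {k k' : ℕ} (hk : k ≤ k') {R : Set Ω} (h : DT E obs k R) : DT E obs k' R := by
  induction hk with
  | refl => exact h
  | step _ ih => exact DT.succ _ _ ih

theorem DT.query {k : ℕ} {R : Set Ω} (x : X) (h : ∀ a, DT E obs k (R ∩ {ω | obs x ω = a})) :
    DT E obs (k + 1) R := Or.inr ⟨x, h⟩

/-- nodes visited strictly between two times -/
noncomputable def Vis (v : ℕ → X) (p r : ℕ) : Finset X := (Finset.Ioo p r).image v

theorem Vis_sub {v : ℕ → X} {p p' r r' : ℕ} (hp : p ≤ p') (hr : r' ≤ r) :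
    Vis v p' r' ⊆ Vis v p r := by
  intro w hw
  simp only [Vis, Finset.mem_image, Finset.mem_Ioo] at hw ⊢
  obtain ⟨t, ⟨h1, h2⟩, h3⟩ := hw
  exact ⟨t, ⟨by omega, by omega⟩, h3⟩

theorem Vis_succ_card (v : ℕ → X) (p r : ℕ) : (Vis v p (r + 1)).card ≤ (Vis v p r).card + 1 := by
  have : Vis v p (r + 1) ⊆ insert (v r) (Vis v p r) := by
    intro w hw
    simp only [Vis, Finset.mem_image, Finset.mem_Ioo, Finset.mem_insert] at hw ⊢
    obtain ⟨t, ⟨h1, h2⟩, h3⟩ := hw
    by_cases ht : t = r
    · left; rw [← h3, ht]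
    · right; exact ⟨t, ⟨h1, by omega⟩, h3⟩
  exact (Finset.card_le_card this).trans (Finset.card_insert_le _ _)

theorem Vis_self (v : ℕ → X) (p : ℕ) : Vis v p (p + 1) = ∅ := by
  unfold Vis
  have : Finset.Ioo p (p + 1) = ∅ := by
    ext t; simp only [Finset.mem_Ioo, Finset.notMem_empty, iff_false]; omega
  rw [this]; rfl

/-- if the count of visited nodes exceeds `h`, some time has exactly `h` visited nodes before it -/
theorem exists_exact (v : ℕ → X) (p r h : ℕ) (hpr : p < r) (hh : h < (Vis v p r).card) :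
    ∃ t, p < t ∧ t < r ∧ (Vis v p t).card = h := by
  have hex : ∃ t, p < t ∧ h < (Vis v p t).card := ⟨r, hpr, hh⟩
  set t0 := Nat.find hex with ht0
  have h0 := Nat.find_spec hex
  rw [← ht0] at h0
  have hle : t0 ≤ r := Nat.find_min' hex ⟨hpr, hh⟩
  have hne : t0 ≠ p + 1 := by
    intro he
    rw [he, Vis_self] at h0
    simp at h0
  obtain ⟨t, htt⟩ : ∃ t, t0 = t + 1 := ⟨t0 - 1, by omega⟩
  have hmin : ¬ (p < t ∧ h < (Vis v p t).card) := by
    intro hc
    have := Nat.find_min' hex hc
    omega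
  rw [htt] at h0 hle hne
  have h1 := Vis_succ_card v p t
  refine ⟨t, by omega, by omega, ?_⟩
  have h2 : ¬ h < (Vis v p t).card := fun hc => hmin ⟨by omega, hc⟩
  omega

/-- The data of a sequence of tests. -/
structure Tests (E : Set Ω → Prop) (obs : X → Ω → Q) (vals : X → Finset Q)
    (v : ℕ → X) (F : ℕ → Ω → Prop) (T q : ℕ) : Prop where
  anti : ∀ R R' : Set Ω, R' ⊆ R → E R → E R'
  hF : ∀ t ω ω', obs (v t) ω = obs (v t) ω' → F t ω → F t ω'
  step : ∀ t, t < T → ∀ R : Set Ω, (∀ ω ∈ R, F t ω) → (∀ ω ∈ R, ¬ F (t + 1) ω) → E R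
  hvals : ∀ x ω, obs x ω ∈ vals x
  hq : ∀ x, (vals x).card ≤ q

/-- all intervals visiting at most `h` nodes are solved with `b` queries -/
def Good (E : Set Ω → Prop) (obs : X → Ω → Q) (v : ℕ → X) (F : ℕ → Ω → Prop) (T h b : ℕ) : Prop :=
  ∀ (R : Set Ω) (p r : ℕ), p < r → r ≤ T → (∀ ω ∈ R, F p ω) → (∀ ω ∈ R, ¬ F r ω) →
    (Vis v p r).card ≤ h → DT E obs b R

variable {vals : X → Finset Q} {v : ℕ → X} {F : ℕ → Ω → Prop} {T q : ℕ}

/-- base case: a single node -/
theorem good_one (H : Tests E obs vals v F T q) : Good E obs v F T 1 1 := by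
  intro R p r hpr hrT hp hr hcard
  by_cases hpr1 : r = p + 1
  · subst hpr1
    exact DT.of_E (H.step p (by omega) R hp hr)
  -- query the node visited at time p+1
  refine DT.query (v (p + 1)) fun a => ?_
  have hall : ∀ t, p < t → t < r → v t = v (p + 1) := by
    intro t h1 h2
    have hm1 : v t ∈ Vis v p r := Finset.mem_image_of_mem _ (by simp [h1, h2])
    have hm2 : v (p + 1) ∈ Vis v p r := Finset.mem_image_of_mem _ (by simp; omega)
    exact Finset.card_le_one.mp hcard _ hm1 _ hm2
  by_cases hne : (R ∩ {ω | obs (v (p + 1)) ω = a}) = ∅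
  · rw [hne]
    exact DT.of_E (H.step p (by omega) ∅ (by simp) (by simp))
  obtain ⟨ω0, hω0⟩ := Set.nonempty_iff_ne_empty.mpr hne
  have hconst : ∀ t, p ≤ t → t ≤ r → ∀ ω ∈ (R ∩ {ω | obs (v (p + 1)) ω = a}), (F t ω ↔ F t ω0) := by
    intro t h1 h2 ω hω
    rcases Nat.lt_or_ge p t with h3 | h3
    · rcases Nat.lt_or_ge t r with h4 | h4
      · have hv := hall t h3 h4
        constructor
        · intro h; refine H.hF t ω ω0 ?_ h; rw [hv, hω.2, hω0.2]
        · intro h; refine H.hF t ω0 ω ?_ h; rw [hv, hω.2, hω0.2]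
      · have : t = r := by omega
        subst this
        simp [hr ω hω.1, hr ω0 hω0.1]
    · have : t = p := by omega
      subst this
      simp [hp ω hω.1, hp ω0 hω0.1]
  -- find the descent for ω0
  have hex : ∃ t, p < t ∧ ¬ F t ω0 := ⟨r, hpr, hr ω0 hω0.1⟩
  set t0 := Nat.find hex with ht0
  have h0 := Nat.find_spec hex
  rw [← ht0] at h0
  have hle : t0 ≤ r := Nat.find_min' hex ⟨hpr, hr ω0 hω0.1⟩
  obtain ⟨t, htt⟩ : ∃ t, t0 = t + 1 := ⟨t0 - 1, by omega⟩
  rw [htt] at h0 hle
  have hFt : F t ω0 := by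
    rcases Nat.lt_or_ge p t with h3 | h3
    · by_contra hc
      have := Nat.find_min' hex ⟨h3, hc⟩
      omega
    · have : t = p := by omega
      rw [this]; exact hp ω0 hω0.1
  refine DT.of_E (H.step t (by omega) _ ?_ ?_)
  · intro ω hω
    exact (hconst t (by omega) (by omega) ω hω).mpr hFt
  · intro ω hω h
    exact h0.2 ((hconst (t + 1) (by omega) (by omega) ω hω).mp h)

/-- usable answers -/
noncomputable def U (E : Set Ω → Prop) (obs : X → Ω → Q) (vals : X → Finset Q) (b : ℕ) (R : Set Ω)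
    (w : X) : Finset Q :=
  (vals w).filter (fun y => ¬ DT E obs b (R ∩ {ω | obs w ω = y}))

/-- the potential -/
noncomputable def Phi (E : Set Ω → Prop) (obs : X → Ω → Q) (vals : X → Finset Q) (b : ℕ)
    (W : Finset X) (R : Set Ω) : ℕ :=
  ∑ w ∈ W, Nat.size (U E obs vals b R w).card

theorem U_anti (H : Tests E obs vals v F T q) (b : ℕ) {R R' : Set Ω} (h : R' ⊆ R) (w : X) :
    U E obs vals b R' w ⊆ U E obs vals b R w := by
  intro y hy
  simp only [U, Finset.mem_filter] at hy ⊢
  exact ⟨hy.1, fun hc => hy.2 (DT.anti H.anti _ _ _ (Set.inter_subset_inter_left _ h) hc)⟩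

theorem size_half {a c : ℕ} (h : 2 * a ≤ c) (hc : 0 < c) : Nat.size a + 1 ≤ Nat.size c := by
  rcases Nat.eq_zero_or_pos a with ha | ha
  · subst ha
    have := Nat.size_pos.mpr hc
    simp only [Nat.size_zero]
    omega
  · have h1 : Nat.size (2 * a) = Nat.size a + 1 := by
      have := Nat.size_shiftLeft (m := a) (by omega) 1
      rw [Nat.shiftLeft_eq] at this
      rw [mul_comm]; simpa using this
    rw [← h1]
    exact Nat.size_le_size h

/-- nodes that lose at least half of their usable answers -/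
noncomputable def Bad (E : Set Ω → Prop) (obs : X → Ω → Q) (vals : X → Finset Q) (b : ℕ)
    (W : Finset X) (R R' : Set Ω) : Finset X :=
  W.filter (fun w => 2 * (U E obs vals b R' w).card ≤ (U E obs vals b R w).card)

theorem bad_card (H : Tests E obs vals v F T q) (b : ℕ) (W : Finset X) {R R' : Set Ω}
    (h : R' ⊆ R) (hpos : ∀ w, 0 < (U E obs vals b R w).card) :
    (Bad E obs vals b W R R').card + Phi E obs vals b W R' ≤ Phi E obs vals b W R := by
  unfold Bad Phi
  rw [Finset.card_filter, ← Finset.sum_add_distrib]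
  refine Finset.sum_le_sum fun w _ => ?_
  split_ifs with hw
  · have := size_half hw (hpos w)
    omega
  · have := Nat.size_le_size (Finset.card_le_card (U_anti H b h w))
    omega

theorem Phi_anti (H : Tests E obs vals v F T q) (b : ℕ) (W : Finset X) {R R' : Set Ω}
    (h : R' ⊆ R) : Phi E obs vals b W R' ≤ Phi E obs vals b W R :=
  Finset.sum_le_sum fun w _ => Nat.size_le_size (Finset.card_le_card (U_anti H b h w))

theorem DT_empty (H : Tests E obs vals v F T q) (hT : 0 < T) (b : ℕ) : DT E obs b (∅ : Set Ω) :=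
  DT.of_E (H.step 0 hT ∅ (by simp) (by simp))

/-- the heart of the argument: one or two queries either finish with the `h`-node bound or lower
the potential by `θ` -/
theorem core_step (H : Tests E obs vals v F T q) (h b : ℕ)
    (hG : Good E obs v F T h b) (t1 t2 : ℕ) (ht12 : t1 < t2) (ht2 : t2 ≤ T) (W : Finset X)
    (hW : Vis v t1 t2 ⊆ W) (θ : ℕ) (hθ : 0 < θ) (hθh : 2 * (θ - 1) < h)
    (R : Set Ω) (hR1 : ∀ ω ∈ R, F t1 ω) (hR2 : ∀ ω ∈ R, ¬ F t2 ω) (K : ℕ) (hK : b + 1 ≤ K)
    (hdrop : ∀ R' : Set Ω, R' ⊆ R → Phi E obs vals b W R' + θ ≤ Phi E obs vals b W R →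
      DT E obs K R') :
    DT E obs (K + 2) R := by
  have hT : 0 < T := by omega
  by_cases hb1 : DT E obs (b + 1) R
  · exact DT.mono (by omega) hb1
  -- restriction of the knowledge to an answer
  set Rs : X → Q → Set Ω := fun x a => R ∩ {ω | obs x ω = a} with hRs
  have hRsub : ∀ x a, Rs x a ⊆ R := fun x a => Set.inter_subset_left
  -- every node has a usable answer
  have hpos : ∀ w, 0 < (U E obs vals b R w).card := by
    intro w
    rw [Finset.card_pos]
    by_contra hc
    rw [Finset.not_nonempty_iff_eq_empty] at hc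
    refine hb1 (DT.query w fun y => ?_)
    by_cases hy : y ∈ vals w
    · by_contra hd
      have : y ∈ U E obs vals b R w := by
        simp only [U, Finset.mem_filter]; exact ⟨hy, hd⟩
      rw [hc] at this
      simp at this
    · have : R ∩ {ω | obs w ω = y} = ∅ := by
        ext ω
        simp only [Set.mem_inter_iff, Set.mem_ofPred_eq, Set.mem_empty_iff_false, iff_false, not_and]
        intro _ h2
        exact hy (h2 ▸ H.hvals w ω)
      rw [this]; exact DT_empty H hT b
  -- dominant answers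
  set Z : X → Set Q := fun x => {a | ¬ DT E obs b (Rs x a) ∧
    Phi E obs vals b W R < Phi E obs vals b W (Rs x a) + θ} with hZ
  have hnotZ : ∀ x a, a ∉ Z x → DT E obs K (Rs x a) := by
    intro x a ha
    by_cases h1 : DT E obs b (Rs x a)
    · exact DT.mono (by omega) h1
    · refine hdrop _ (hRsub x a) ?_
      by_contra h2
      exact ha ⟨h1, by omega⟩
  by_cases hA : ∃ x, ∀ a, a ∉ Z x
  · obtain ⟨x, hx⟩ := hA
    exact DT.mono (by omega) (DT.query x fun a => hnotZ x a (hx a))
  push Not at hA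
  -- alive answers
  set AL : ℕ → Q → Prop := fun t a => ∀ ω, obs (v t) ω = a → F t ω with hAL
  have hnotAL : ∀ t a, ¬ AL t a → ∀ ω, obs (v t) ω = a → ¬ F t ω := by
    intro t a hna ω hω hF
    apply hna
    intro ω' hω'
    exact H.hF t ω ω' (by rw [hω, hω']) hF
  set one : ℕ → Prop := fun t => t = t1 ∨ (t1 < t ∧ t < t2 ∧ ∀ a ∈ Z (v t), AL t a) with hone
  set zero : ℕ → Prop := fun t => t = t2 ∨ (t1 < t ∧ t < t2 ∧ ∀ a ∈ Z (v t), ¬ AL t a) with hzero
  -- closest pair
  have hpair : ∃ g, ∃ p, t1 ≤ p ∧ p + g ≤ t2 ∧ 0 < g ∧ one p ∧ zero (p + g) :=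
    ⟨t2 - t1, t1, le_refl _, by omega, by omega, Or.inl rfl, Or.inl (by omega)⟩
  set g := Nat.find hpair with hg
  obtain ⟨p, hp1, hp2, hg0, hop, hzr⟩ := Nat.find_spec hpair
  rw [← hg] at hp2 hg0 hzr
  set r := p + g with hr
  have hmid1 : ∀ t, p < t → t < r → ¬ one t := by
    intro t h1 h2 h3
    have := Nat.find_min' hpair ⟨t, by omega, (by omega : t + (r - t) ≤ t2), by omega, h3, by
      have : t + (r - t) = r := by omega
      rw [this]; exact hzr⟩
    omega
  have hmid0 : ∀ t, p < t → t < r → ¬ zero t := by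
    intro t h1 h2 h3
    have := Nat.find_min' hpair ⟨p, by omega, (by omega : p + (t - p) ≤ t2), by omega, hop, by
      have : p + (t - p) = t := by omega
      rw [this]; exact h3⟩
    omega
  -- knowledge at the left end
  have hbadlt : ∀ R' : Set Ω, R' ⊆ R → Phi E obs vals b W R < Phi E obs vals b W R' + θ →
      (Bad E obs vals b W R R').card ≤ θ - 1 := by
    intro R' h1 h2
    have := bad_card H b W h1 hpos
    omega
  have hcard : (Vis v p r).card ≤ h := by
    by_contra hc
    push Not at hc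
    obtain ⟨t, hpt, htr, hcardt⟩ := exists_exact v p r h (by omega) hc
    -- left knowledge
    obtain ⟨R1, hR1sub, hR1F, hR1Phi⟩ : ∃ R1 : Set Ω, R1 ⊆ R ∧ (∀ ω ∈ R1, F p ω) ∧
        Phi E obs vals b W R < Phi E obs vals b W R1 + θ := by
      rcases hop with h1 | ⟨h1, h2, h3⟩
      · exact ⟨R, subset_rfl, by rw [h1]; exact hR1, by omega⟩
      · obtain ⟨a, ha⟩ := hA (v p)
        exact ⟨Rs (v p) a, hRsub _ _, fun ω hω => h3 a ha ω hω.2, ha.2⟩
    -- right knowledge
    obtain ⟨R2, hR2sub, hR2F, hR2Phi⟩ : ∃ R2 : Set Ω, R2 ⊆ R ∧ (∀ ω ∈ R2, ¬ F t ω) ∧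
        Phi E obs vals b W R < Phi E obs vals b W R2 + θ := by
      have hn1 : ¬ one t := hmid1 t hpt htr
      have : ∃ a ∈ Z (v t), ¬ AL t a := by
        by_contra hcc
        push Not at hcc
        exact hn1 (Or.inr ⟨by omega, by omega, hcc⟩)
      obtain ⟨a, ha, hna⟩ := this
      exact ⟨Rs (v t) a, hRsub _ _, fun ω hω => hnotAL t a hna ω hω.2, ha.2⟩
    have hB1 := hbadlt R1 hR1sub hR1Phi
    have hB2 := hbadlt R2 hR2sub hR2Phi
    -- a common good node
    have hVW : Vis v p t ⊆ W := (Vis_sub hp1 (by omega)).trans hW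
    have hex : ∃ w ∈ Vis v p t, w ∉ Bad E obs vals b W R R1 ∧ w ∉ Bad E obs vals b W R R2 := by
      by_contra hcc
      push Not at hcc
      have hsub : Vis v p t ⊆ Bad E obs vals b W R R1 ∪ Bad E obs vals b W R R2 := by
        intro w hw
        rw [Finset.mem_union]
        by_cases hw1 : w ∈ Bad E obs vals b W R R1
        · exact Or.inl hw1
        · exact Or.inr (hcc w hw hw1)
      have h1 := Finset.card_le_card hsub
      have h2 := Finset.card_union_le (Bad E obs vals b W R R1) (Bad E obs vals b W R R2)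
      omega
    obtain ⟨w, hw, hw1, hw2⟩ := hex
    have hwW : w ∈ W := hVW hw
    simp only [Bad, Finset.mem_filter, hwW, true_and, not_le] at hw1 hw2
    -- a common usable value
    have hU1 := U_anti H b hR1sub w
    have hU2 := U_anti H b hR2sub w
    have hcommon : ∃ y, y ∈ U E obs vals b R1 w ∧ y ∈ U E obs vals b R2 w := by
      by_contra hcc
      push Not at hcc
      have hdisj : Disjoint (U E obs vals b R1 w) (U E obs vals b R2 w) := by
        rw [Finset.disjoint_left]; exact hcc
      have h1 := Finset.card_union_of_disjoint hdisj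
      have h2 := Finset.card_le_card (Finset.union_subset hU1 hU2)
      omega
    obtain ⟨y, hy1, hy2⟩ := hcommon
    simp only [U, Finset.mem_filter] at hy1 hy2
    simp only [Vis, Finset.mem_image, Finset.mem_Ioo] at hw
    obtain ⟨t', ⟨ht'1, ht'2⟩, ht'3⟩ := hw
    by_cases hal : AL t' y
    · apply hy2.2
      refine hG _ t' t ht'2 (by omega) ?_ (fun ω hω => hR2F ω hω.1) ?_
      · intro ω hω
        exact hal ω (by rw [ht'3]; exact hω.2)
      · rw [← hcardt]
        exact Finset.card_le_card (Vis_sub (by omega) le_rfl)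
    · apply hy1.2
      refine hG _ p t' ht'1 (by omega) (fun ω hω => hR1F ω hω.1) ?_ ?_
      · intro ω hω
        exact hnotAL t' y hal ω (by rw [ht'3]; exact hω.2)
      · rw [← hcardt]
        exact Finset.card_le_card (Vis_sub le_rfl (by omega))
  -- now query the two ends
  have hleft : ∀ k, K ≤ k → (∀ R' : Set Ω, R' ⊆ R → (∀ ω ∈ R', F p ω) → DT E obs k R') →
      DT E obs (k + 1) R := by
    intro k hk hyp
    rcases hop with h1 | ⟨h1, h2, h3⟩
    · exact DT.succ _ _ (hyp R subset_rfl (by rw [h1]; exact hR1))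
    · refine DT.query (v p) fun a => ?_
      by_cases ha : a ∈ Z (v p)
      · exact hyp _ (hRsub _ _) fun ω hω => h3 a ha ω hω.2
      · exact DT.mono hk (hnotZ _ _ ha)
  refine hleft (K + 1) (by omega) fun R' hR' hF' => ?_
  rcases hzr with h1 | ⟨h1, h2, h3⟩
  · refine DT.mono (by omega) (hG R' p r (by omega) (by omega) hF' ?_ hcard)
    intro ω hω
    rw [h1]; exact hR2 ω (hR' hω)
  · refine DT.query (v r) fun a => ?_
    by_cases ha : a ∈ Z (v r)
    · refine DT.mono (by omega) (hG _ p r (by omega) (by omega) (fun ω hω => hF' ω hω.1) ?_ hcard)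
      intro ω hω
      exact hnotAL r a (h3 a ha) ω hω.2
    · exact DT.anti H.anti _ _ _ (Set.inter_subset_inter_left _ hR') (hnotZ _ _ ha)

/-- the main step -/
theorem main_step (H : Tests E obs vals v F T q) (h b : ℕ)
    (hG : Good E obs v F T h b) (t1 t2 : ℕ) (ht12 : t1 < t2) (ht2 : t2 ≤ T) (W : Finset X)
    (hW : Vis v t1 t2 ⊆ W) (θ : ℕ) (hθ : 0 < θ) (hθh : 2 * (θ - 1) < h) :
    ∀ (m : ℕ) (R : Set Ω), (∀ ω ∈ R, F t1 ω) → (∀ ω ∈ R, ¬ F t2 ω) →
      Phi E obs vals b W R < (m + 1) * θ → DT E obs (b + 3 + 2 * m) R := by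
  intro m
  induction m with
  | zero =>
    intro R hR1 hR2 hPhi
    have := core_step H h b hG t1 t2 ht12 ht2 W hW θ hθ hθh R hR1 hR2 (b + 1) le_rfl ?_
    · exact DT.mono (by omega) this
    · intro R' _ h2
      omega
  | succ m ih =>
    intro R hR1 hR2 hPhi
    have := core_step H h b hG t1 t2 ht12 ht2 W hW θ hθ hθh R hR1 hR2 (b + 3 + 2 * m) (by omega) ?_
    · exact DT.mono (by omega) this
    · intro R' h1 h2
      refine ih R' (fun ω hω => hR1 ω (h1 hω)) (fun ω hω => hR2 ω (h1 hω)) ?_
      have h3 : (m + 1 + 1) * θ = (m + 1) * θ + θ := by ring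
      omega

/-- doubling the number of nodes costs `O(log q)` queries -/
theorem good_double (H : Tests E obs vals v F T q) (h b : ℕ) (hh : 0 < h)
    (hG : Good E obs v F T h b) :
    Good E obs v F T (2 * h) (b + 3 + 8 * Nat.size q) := by
  intro R p r hpr hrT hp hr hcard
  set θ := (h + 1) / 2 with hθdef
  have hθ1 : 0 < θ := by omega
  have hθ2 : 2 * (θ - 1) < h := by omega
  have hθ3 : h ≤ 2 * θ := by omega
  have hPhi : Phi E obs vals b (Vis v p r) R ≤ (2 * h) * Nat.size q := by
    unfold Phi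
    calc ∑ w ∈ Vis v p r, Nat.size (U E obs vals b R w).card
        ≤ ∑ _w ∈ Vis v p r, Nat.size q := by
          refine Finset.sum_le_sum fun w _ => Nat.size_le_size ?_
          exact (Finset.card_filter_le _ _).trans (H.hq w)
      _ = (Vis v p r).card * Nat.size q := by simp
      _ ≤ (2 * h) * Nat.size q := Nat.mul_le_mul_right _ hcard
  have := main_step H h b hG p r hpr hrT (Vis v p r) subset_rfl θ hθ1 hθ2 (4 * Nat.size q) R hp hr ?_
  · exact DT.mono (by omega) this
  · have h1 : (2 * h) * Nat.size q ≤ (4 * θ) * Nat.size q := Nat.mul_le_mul_right _ (by omega)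
    have h2 : (4 * Nat.size q + 1) * θ = (4 * θ) * Nat.size q + θ := by ring
    omega

/-- the bound in terms of the logarithm of the number of nodes -/
theorem good_pow (H : Tests E obs vals v F T q) :
    ∀ k, Good E obs v F T (2 ^ k) (1 + k * (3 + 8 * Nat.size q)) := by
  intro k
  induction k with
  | zero => simpa using good_one H
  | succ k ih =>
    have := good_double H (2 ^ k) _ (Nat.pos_of_ne_zero (by positivity)) ih
    have h1 : 2 * 2 ^ k = 2 ^ (k + 1) := by ring
    have h2 : 1 + k * (3 + 8 * Nat.size q) + 3 + 8 * Nat.size q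
        = 1 + (k + 1) * (3 + 8 * Nat.size q) := by ring
    rw [h1, h2] at this
    exact this

end core
end Pool.Agent.VarSpace
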